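import Pool.Agent.H64.LB.Targets
import Pool.Agent.H59.Alg

/-!
# MP_2059f1_ag: base change of chain operators
-/

open Topology Set
open Pool.Agent.H59
open Pool.Agent.H64.LB

namespace Pool.Agent.H52.LB

variable (R : Type) [CommRing R]

theorem bc_zero {S S' : Type*} (x : S →₀ R) :
    bc R (0 : (S →₀ ℤ) →ₗ[ℤ] (S' →₀ ℤ)) x = 0 := by
  induction x using Finsupp.induction_linear with
  | zero => simp
  | add f g hf hg => rw [map_add, hf, hg, add_zero]
  | single s r => rw [bc_single, LinearMap.zero_apply, map_zero, smul_zero]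

theorem bc_bd (n : ℕ) (Y : Type) [TopologicalSpace Y] (x : Ch R (n + 1) Y) :
    bc R (bd ℤ n Y) x = bd R n Y x := by
  induction x using Finsupp.induction_linear with
  | zero => simp
  | add f g hf hg => rw [map_add, map_add, hf, hg]
  | single s r =>
    rw [bc_single, bd_single, bd_single, one_smul, map_sum]
    congr 1
    refine Finset.sum_congr rfl fun i _ => ?_
    rw [red_zsmul, red_single]
    push_cast
    rfl

theorem bc_pf {Y Z : Type} [TopologicalSpace Y] [TopologicalSpace Z] (n : ℕ) (f : C(Y, Z))
    (x : Ch R n Y) : bc R (pf ℤ n f) x = pf R n f x := by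
  induction x using Finsupp.induction_linear with
  | zero => simp
  | add f g hf hg => rw [map_add, map_add, hf, hg]
  | single s r =>
    rw [bc_single, pf_single, pf_single, red_single]
    simp

/-- the corestriction of a simplex -/
def corestr {n : ℕ} {X : Type} [TopologicalSpace X] {W : Set X} (σ : Smp n X) (h : ∀ x, σ x ∈ W) :
    Smp n W := ⟨fun t => ⟨σ t, h t⟩, σ.continuous.subtype_mk _⟩

theorem inc_comp_corestr {n : ℕ} {X : Type} [TopologicalSpace X] {W : Set X} (σ : Smp n X)
    (h : ∀ x, σ x ∈ W) : (inc W).comp (corestr σ h) = σ := rfl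

end Pool.Agent.H52.LB
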