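import Pool.Agent.H64.LB.Targets

/-!
# MP_2059f1_ag: module L-DQ
-/

open Topology Set MvPolynomial
open Pool.Agent.H59
open Pool.Agent.H64.LB

namespace Pool.Agent.H52.LB

theorem zeros_SDQ_iff (x : Fin 5 → ℂ) : (∀ f ∈ SDQ, MvPolynomial.eval x f = 0) ↔
    x 0 ^ 3 + x 1 ^ 2 = 1 ∧ x 2 ^ 2 + x 3 ^ 2 + x 4 ^ 2 = 1 := by
  classical
  have hS : ∀ f, f ∈ SDQ ↔ f = X 0 ^ 3 + X 1 ^ 2 - 1 ∨ f = X 2 ^ 2 + X 3 ^ 2 + X 4 ^ 2 - 1 := by
    intro f
    rw [SDQ]
    simp only [Finset.mem_insert, Finset.mem_singleton]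
  constructor
  · intro h
    have h1 := h _ ((hS _).2 (Or.inl rfl))
    have h2 := h _ ((hS _).2 (Or.inr rfl))
    simp only [map_sub, map_add, map_pow, eval_X, map_one] at h1 h2
    exact ⟨sub_eq_zero.1 h1, sub_eq_zero.1 h2⟩
  · rintro ⟨h1, h2⟩ f hf
    rcases (hS f).1 hf with rfl | rfl
    · simp only [map_sub, map_add, map_pow, eval_X, map_one, h1, sub_self]
    · simp only [map_sub, map_add, map_pow, eval_X, map_one, h2, sub_self]

theorem dq : T_DQ := by
  have hto : ∀ p : VV 1 × QS, ∀ f ∈ SDQ, MvPolynomial.eval (ptDQ p) f = 0 := by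
    intro p
    rw [zeros_SDQ_iff]
    have h1 := p.1.2
    have h2 := p.2.2
    simp only [Finset.univ_unique, Fin.default_eq_zero, Finset.sum_singleton] at h1
    rw [Fin.sum_univ_three] at h2
    exact ⟨h1, h2⟩
  have hinv : ∀ x : Zeros SDQ,
      ((x.1 0, fun _ : Fin 1 => x.1 1) : ℂ × (Fin 1 → ℂ)).1 ^ 3 +
        ∑ i, ((x.1 0, fun _ : Fin 1 => x.1 1) : ℂ × (Fin 1 → ℂ)).2 i ^ 2 = 1 := by
    intro x
    have := ((zeros_SDQ_iff x.1).1 x.2).1
    simpa using this
  have hinv2 : ∀ x : Zeros SDQ, ∑ i, (![x.1 2, x.1 3, x.1 4] : Fin 3 → ℂ) i ^ 2 = 1 := by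
    intro x
    have := ((zeros_SDQ_iff x.1).1 x.2).2
    rw [Fin.sum_univ_three]
    simpa using this
  refine ⟨{ toFun := fun p => ⟨ptDQ p, hto p⟩
            invFun := fun x => (⟨(x.1 0, fun _ => x.1 1), hinv x⟩, ⟨![x.1 2, x.1 3, x.1 4], hinv2 x⟩)
            left_inv := ?_
            right_inv := ?_
            continuous_toFun := ?_
            continuous_invFun := ?_ }, fun p => rfl⟩
  · rintro ⟨⟨⟨a, b⟩, hp⟩, ⟨z, hz⟩⟩
    refine Prod.ext (Subtype.ext (Prod.ext rfl ?_)) (Subtype.ext ?_)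
    · funext i
      have : i = 0 := Subsingleton.elim _ _
      subst this; rfl
    · funext i
      fin_cases i <;> rfl
  · rintro ⟨x, hx⟩
    refine Subtype.ext ?_
    funext i
    fin_cases i <;> rfl
  · refine Continuous.subtype_mk ?_ _
    refine continuous_pi fun i => ?_
    have c1 : Continuous fun p : VV 1 × QS => p.1.1.1 := by fun_prop
    have c2 : Continuous fun p : VV 1 × QS => p.1.1.2 0 :=
      (continuous_apply 0).comp (continuous_snd.comp (continuous_subtype_val.comp continuous_fst))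
    have c3 : ∀ j, Continuous fun p : VV 1 × QS => p.2.1 j := fun j =>
      (continuous_apply j).comp (continuous_subtype_val.comp continuous_snd)
    fin_cases i
    · exact c1
    · exact c2
    · exact c3 0
    · exact c3 1
    · exact c3 2
  · have c : ∀ j, Continuous fun x : Zeros SDQ => x.1 j := fun j =>
      (continuous_apply j).comp continuous_subtype_val
    refine Continuous.prodMk ?_ ?_
    · refine Continuous.subtype_mk ?_ _
      exact (c 0).prodMk (continuous_pi fun _ => c 1)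
    · refine Continuous.subtype_mk ?_ _
      refine continuous_pi fun i => ?_
      fin_cases i
      · exact c 2
      · exact c 3
      · exact c 4

end Pool.Agent.H52.LB
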