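import Pool.Agent.H64.LB.Targets

/-!
# MP_2059f1_ag: module L-EPS
-/

open Topology Set MvPolynomial
open Pool.Agent.H59
open Pool.Agent.H64.LB

namespace Pool.Agent.H52.LB

theorem sg_inj {k k' : Fin 3} {j j' : Fin 2} : sg k j = sg k' j' ↔ k = k' ∧ j = j' := by
  constructor
  · intro h
    have h1 : 2 * (k : ℕ) + j = 2 * (k' : ℕ) + j' := congrArg Fin.val h
    constructor
    · apply Fin.ext; omega
    · apply Fin.ext; omega
  · rintro ⟨rfl, rfl⟩; rfl

theorem sg_surj (k : Fin 6) : ∃ i j, k = sg i j :=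
  ⟨⟨(k : ℕ) / 2, by omega⟩, ⟨(k : ℕ) % 2, by omega⟩, by
    apply Fin.ext
    change (k : ℕ) = 2 * ((k : ℕ) / 2) + (k : ℕ) % 2
    omega⟩

theorem mem_EPset_iff (v : NZ 5) : pt v ∈ EPset ↔
    (∀ k k' : Fin 3, v.1 (sg k 0) * v.1 (sg k' 1) = v.1 (sg k 1) * v.1 (sg k' 0)) ∧
    (∀ j : Fin 2, v.1 (sg 0 j) ^ 3 + v.1 (sg 1 j) ^ 2 * v.1 (sg 2 j) = v.1 (sg 2 j) ^ 3) := by
  classical
  constructor
  · intro h
    constructor
    · intro k k'
      have hm : X (sg k 0) * X (sg k' 1) - X (sg k 1) * X (sg k' 0) ∈ SEP := by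
        rw [SEP, Finset.mem_union]
        exact Or.inl (Finset.mem_image.2 ⟨(k, k'), Finset.mem_univ _, rfl⟩)
      have h1 := (van_pt_iff (SEP_homog _ hm) v).1 (h _ hm)
      simp only [map_sub, map_mul, eval_X] at h1
      exact sub_eq_zero.1 h1
    · intro j
      have hm : X (sg 0 j) ^ 3 + X (sg 1 j) ^ 2 * X (sg 2 j) - X (sg 2 j) ^ 3 ∈ SEP := by
        rw [SEP, Finset.mem_union]
        exact Or.inr (Finset.mem_image.2 ⟨j, Finset.mem_univ _, rfl⟩)
      have h1 := (van_pt_iff (SEP_homog _ hm) v).1 (h _ hm)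
      simp only [map_sub, map_add, map_mul, map_pow, eval_X] at h1
      exact sub_eq_zero.1 h1
  · rintro ⟨h1, h2⟩ f hf
    rw [van_pt_iff (SEP_homog _ hf) v]
    rw [SEP, Finset.mem_union] at hf
    rcases hf with hf | hf
    · obtain ⟨⟨k, k'⟩, _, rfl⟩ := Finset.mem_image.1 hf
      simp only [map_sub, map_mul, eval_X]
      exact sub_eq_zero.2 (h1 k k')
    · obtain ⟨j, _, rfl⟩ := Finset.mem_image.1 hf
      simp only [map_sub, map_add, map_mul, map_pow, eval_X]
      exact sub_eq_zero.2 (h2 j)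

/-- membership in terms of two columns -/
theorem mem_EPset_iff' (v : NZ 5) {j j' : Fin 2} (hj : j ≠ j') : pt v ∈ EPset ↔
    (∀ k k' : Fin 3, v.1 (sg k j) * v.1 (sg k' j') = v.1 (sg k' j) * v.1 (sg k j')) ∧
    (v.1 (sg 0 j) ^ 3 + v.1 (sg 1 j) ^ 2 * v.1 (sg 2 j) = v.1 (sg 2 j) ^ 3) ∧
    (v.1 (sg 0 j') ^ 3 + v.1 (sg 1 j') ^ 2 * v.1 (sg 2 j') = v.1 (sg 2 j') ^ 3) := by
  rw [mem_EPset_iff]
  fin_cases j <;> fin_cases j'
  · exact absurd rfl hj
  · constructor
    · rintro ⟨h1, h2⟩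
      exact ⟨fun k k' => by have := h1 k k'; simp only [Fin.zero_eta, Fin.mk_one]; linear_combination this,
        h2 0, h2 1⟩
    · rintro ⟨h1, h2, h3⟩
      refine ⟨fun k k' => by have := h1 k k'; simp only [Fin.zero_eta, Fin.mk_one] at this; linear_combination this,
        fun j => ?_⟩
      fin_cases j
      · exact h2
      · exact h3
  · constructor
    · rintro ⟨h1, h2⟩
      exact ⟨fun k k' => by have := h1 k k'; simp only [Fin.zero_eta, Fin.mk_one]; linear_combination -this,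
        h2 1, h2 0⟩
    · rintro ⟨h1, h2, h3⟩
      refine ⟨fun k k' => by have := h1 k k'; simp only [Fin.zero_eta, Fin.mk_one] at this; linear_combination -this,
        fun j => ?_⟩
      fin_cases j
      · exact h3
      · exact h2
  · exact absurd rfl hj

theorem local_eq (v : NZ 5) {i i1 i2 : Fin 3} {j j' : Fin 2} (hj : j ≠ j')
    (hi : ∀ k : Fin 3, k = i ∨ k = i1 ∨ k = i2) (hm : v.1 (sg i j) ≠ 0) : pt v ∈ EPset ↔
    (v.1 (sg i1 j') * v.1 (sg i j) - v.1 (sg i1 j) * v.1 (sg i j') = 0 ∧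
      v.1 (sg i2 j') * v.1 (sg i j) - v.1 (sg i2 j) * v.1 (sg i j') = 0 ∧
      v.1 (sg 0 j) ^ 3 + v.1 (sg 1 j) ^ 2 * v.1 (sg 2 j) - v.1 (sg 2 j) ^ 3 = 0) := by
  rw [mem_EPset_iff' v hj]
  constructor
  · rintro ⟨h1, h2, _⟩
    refine ⟨?_, ?_, sub_eq_zero.2 h2⟩
    · linear_combination h1 i i1
    · linear_combination h1 i i2
  · rintro ⟨h1, h2, h3⟩
    have h4 : ∀ k, v.1 (sg k j') = v.1 (sg k j) * (v.1 (sg i j') / v.1 (sg i j)) := by
      intro k
      field_simp
      rcases hi k with rfl | rfl | rfl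
      · ring
      · linear_combination h1
      · linear_combination h2
    refine ⟨fun k k' => ?_, sub_eq_zero.1 h3, ?_⟩
    · rw [h4 k, h4 k']; ring
    · rw [h4 0, h4 1, h4 2]
      linear_combination (v.1 (sg i j') / v.1 (sg i j)) ^ 3 * h3

/-- the local equations -/
noncomputable def fEP (i i1 i2 : Fin 3) (j j' : Fin 2) : Fin 3 → Pol 5 :=
  ![X (sg i1 j') * X (sg i j) - X (sg i1 j) * X (sg i j'),
    X (sg i2 j') * X (sg i j) - X (sg i2 j) * X (sg i j'),
    X (sg 0 j) ^ 3 + X (sg 1 j) ^ 2 * X (sg 2 j) - X (sg 2 j) ^ 3]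

theorem fEP_homog (i i1 i2 : Fin 3) (j j' : Fin 2) (k : Fin 3) : Homog (fEP i i1 i2 j j' k) := by
  fin_cases k
  · exact ⟨2, ((isHomogeneous_X _ _).mul (isHomogeneous_X _ _)).sub
      ((isHomogeneous_X _ _).mul (isHomogeneous_X _ _))⟩
  · exact ⟨2, ((isHomogeneous_X _ _).mul (isHomogeneous_X _ _)).sub
      ((isHomogeneous_X _ _).mul (isHomogeneous_X _ _))⟩
  · refine ⟨3, ((isHomogeneous_X_pow _ 3).add ?_).sub (isHomogeneous_X_pow _ 3)⟩
    exact (isHomogeneous_X_pow (R := ℂ) (sg 1 j) 2).mul (isHomogeneous_X ℂ (sg 2 j))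

theorem eval_pderiv_X {σ : Type*} [DecidableEq σ] (v : σ → ℂ) (a b : σ) :
    eval v (pderiv a (X b : MvPolynomial σ ℂ)) = if b = a then 1 else 0 := by
  rw [pderiv_X, Pi.single_apply]
  split_ifs <;> simp

theorem indep (v : NZ 5) (hv : pt v ∈ EPset) {i i1 i2 : Fin 3} {j j' : Fin 2} (hj : j ≠ j')
    (h01 : i ≠ i1) (h02 : i ≠ i2) (h12 : i1 ≠ i2) (hm : v.1 (sg i j) ≠ 0) :
    LinearIndependent ℂ
      (fun (k : Fin 3) (l : Fin 6) => eval v.1 (pderiv l (fEP i i1 i2 j j' k))) := by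
  rw [Fintype.linearIndependent_iff]
  intro g hg
  have key : ∀ l : Fin 6, g 0 * eval v.1 (pderiv l (fEP i i1 i2 j j' 0)) +
      g 1 * eval v.1 (pderiv l (fEP i i1 i2 j j' 1)) +
      g 2 * eval v.1 (pderiv l (fEP i i1 i2 j j' 2)) = 0 := by
    intro l
    have := congrFun hg l
    rw [Fin.sum_univ_three] at this
    simpa using this
  have e0 : ∀ l, eval v.1 (pderiv l (fEP i i1 i2 j j' 0)) =
      v.1 (sg i j) * (if sg i1 j' = l then 1 else 0) + v.1 (sg i1 j') * (if sg i j = l then 1 else 0) -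
      (v.1 (sg i j') * (if sg i1 j = l then 1 else 0) + v.1 (sg i1 j) * (if sg i j' = l then 1 else 0)) := by
    intro l
    change eval v.1 (pderiv l (X (sg i1 j') * X (sg i j) - X (sg i1 j) * X (sg i j') : Pol 5)) = _
    rw [map_sub, pderiv_mul, pderiv_mul]
    simp only [map_sub, map_add, map_mul, eval_pderiv_X, eval_X]
    ring
  have e1 : ∀ l, eval v.1 (pderiv l (fEP i i1 i2 j j' 1)) =
      v.1 (sg i j) * (if sg i2 j' = l then 1 else 0) + v.1 (sg i2 j') * (if sg i j = l then 1 else 0) -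
      (v.1 (sg i j') * (if sg i2 j = l then 1 else 0) + v.1 (sg i2 j) * (if sg i j' = l then 1 else 0)) := by
    intro l
    change eval v.1 (pderiv l (X (sg i2 j') * X (sg i j) - X (sg i2 j) * X (sg i j') : Pol 5)) = _
    rw [map_sub, pderiv_mul, pderiv_mul]
    simp only [map_sub, map_add, map_mul, eval_pderiv_X, eval_X]
    ring
  have e2 : ∀ l, eval v.1 (pderiv l (fEP i i1 i2 j j' 2)) =
      3 * v.1 (sg 0 j) ^ 2 * (if sg 0 j = l then 1 else 0) +
      (2 * v.1 (sg 1 j) * v.1 (sg 2 j) * (if sg 1 j = l then 1 else 0) +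
        v.1 (sg 1 j) ^ 2 * (if sg 2 j = l then 1 else 0)) -
      3 * v.1 (sg 2 j) ^ 2 * (if sg 2 j = l then 1 else 0) := by
    intro l
    change eval v.1 (pderiv l (X (sg 0 j) ^ 3 + X (sg 1 j) ^ 2 * X (sg 2 j) - X (sg 2 j) ^ 3 : Pol 5)) = _
    rw [map_sub, map_add, pderiv_mul, pderiv_pow, pderiv_pow, pderiv_pow]
    simp only [map_sub, map_add, map_mul, eval_pderiv_X, eval_X, map_pow, map_natCast]
    push_cast
    ring
  have g0 : g 0 = 0 := by
    have := key (sg i1 j')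
    rw [e0, e1, e2] at this
    simp only [sg_inj, hj, h01, h02, h12, h12.symm, and_true, and_false, if_true, if_false,
      true_and, false_and] at this
    simp only [mul_one, mul_zero, add_zero, sub_zero] at this
    exact (mul_eq_zero.1 this).resolve_right hm
  have g1 : g 1 = 0 := by
    have := key (sg i2 j')
    rw [e0, e1, e2] at this
    simp only [sg_inj, hj, h01, h02, h12, h12.symm, and_true, and_false, if_true, if_false,
      true_and, false_and] at this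
    simp only [mul_one, mul_zero, add_zero, zero_add, sub_zero] at this
    exact (mul_eq_zero.1 this).resolve_right hm
  have g2 : g 2 = 0 := by
    by_contra hne
    have k0 := key (sg 0 j)
    have k1 := key (sg 1 j)
    have k2 := key (sg 2 j)
    rw [g0, g1, e2] at k0 k1 k2
    simp only [sg_inj, and_true, if_true, zero_mul, zero_add,
      (by decide : ¬ (1 : Fin 3) = 0), (by decide : ¬ (2 : Fin 3) = 0),
      (by decide : ¬ (0 : Fin 3) = 1), (by decide : ¬ (2 : Fin 3) = 1),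
      (by decide : ¬ (0 : Fin 3) = 2), (by decide : ¬ (1 : Fin 3) = 2), if_false, mul_zero,
      mul_one, add_zero, zero_add, sub_zero] at k0 k1 k2
    have hz : ∀ k, v.1 (sg k j) = 0 := by
      have a0 : v.1 (sg 0 j) = 0 := by
        have h3 : (3 : ℂ) * v.1 (sg 0 j) ^ 2 = 0 := (mul_eq_zero.1 k0).resolve_left hne
        have h4 := (mul_eq_zero.1 h3).resolve_left (by norm_num)
        exact pow_eq_zero_iff (two_ne_zero) |>.1 h4
      have h12 : v.1 (sg 1 j) * v.1 (sg 2 j) = 0 := by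
        have h3 : (2 : ℂ) * v.1 (sg 1 j) * v.1 (sg 2 j) = 0 := (mul_eq_zero.1 k1).resolve_left hne
        linear_combination (1 / 2) * h3
      have h22 : v.1 (sg 1 j) ^ 2 = 3 * v.1 (sg 2 j) ^ 2 := by
        have h3 := (mul_eq_zero.1 k2).resolve_left hne
        linear_combination h3
      have a2 : v.1 (sg 2 j) = 0 := by
        rcases mul_eq_zero.1 h12 with h | h
        · rw [h] at h22
          have h4 : v.1 (sg 2 j) ^ 2 = 0 := by linear_combination (-1 / 3) * h22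
          exact pow_eq_zero_iff (two_ne_zero) |>.1 h4
        · exact h
      have a1 : v.1 (sg 1 j) = 0 := by
        rw [a2] at h22
        have h4 : v.1 (sg 1 j) ^ 2 = 0 := by rw [h22]; ring
        exact pow_eq_zero_iff (two_ne_zero) |>.1 h4
      intro k
      fin_cases k
      · exact a0
      · exact a1
      · exact a2
    exact hm (hz i)
  intro k
  fin_cases k
  · exact g0
  · exact g1
  · exact g2

theorem local_eq2 (v : NZ 5) {i i1 i2 : Fin 3} {j j' : Fin 2} (hj : j ≠ j')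
    (hi : ∀ k : Fin 3, k = i ∨ k = i1 ∨ k = i2) (hm : eval v.1 (X (sg i j) : Pol 5) ≠ 0) :
    pt v ∈ EPset ↔ ∀ k, eval v.1 (fEP i i1 i2 j j' k) = 0 := by
  rw [eval_X] at hm
  have ev0 : eval v.1 (fEP i i1 i2 j j' 0) =
      v.1 (sg i1 j') * v.1 (sg i j) - v.1 (sg i1 j) * v.1 (sg i j') := by
    change eval v.1 (X (sg i1 j') * X (sg i j) - X (sg i1 j) * X (sg i j') : Pol 5) = _
    simp only [map_sub, map_mul, eval_X]
  have ev1 : eval v.1 (fEP i i1 i2 j j' 1) =
      v.1 (sg i2 j') * v.1 (sg i j) - v.1 (sg i2 j) * v.1 (sg i j') := by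
    change eval v.1 (X (sg i2 j') * X (sg i j) - X (sg i2 j) * X (sg i j') : Pol 5) = _
    simp only [map_sub, map_mul, eval_X]
  have ev2 : eval v.1 (fEP i i1 i2 j j' 2) =
      v.1 (sg 0 j) ^ 3 + v.1 (sg 1 j) ^ 2 * v.1 (sg 2 j) - v.1 (sg 2 j) ^ 3 := by
    change eval v.1 (X (sg 0 j) ^ 3 + X (sg 1 j) ^ 2 * X (sg 2 j) - X (sg 2 j) ^ 3 : Pol 5) = _
    simp only [map_sub, map_add, map_mul, map_pow, eval_X]
  refine Iff.trans (local_eq v hj hi hm) ?_
  constructor
  · rintro ⟨a, b, c⟩ k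
    fin_cases k
    · exact ev0.trans a
    · exact ev1.trans b
    · exact ev2.trans c
  · intro h
    exact ⟨ev0.symm.trans (h 0), ev1.symm.trans (h 1), ev2.symm.trans (h 2)⟩

theorem eps : T_EPS := by
  intro v₀ hv₀
  obtain ⟨k, hk⟩ := Function.ne_iff.1 v₀.2
  obtain ⟨i, j, rfl⟩ := sg_surj k
  have hm : v₀.1 (sg i j) ≠ 0 := hk
  obtain ⟨j', hj⟩ : ∃ j' : Fin 2, j ≠ j' := by
    fin_cases j
    · exact ⟨1, by decide⟩
    · exact ⟨0, by decide⟩
  obtain ⟨i1, i2, h01, h02, h12, hall⟩ : ∃ i1 i2 : Fin 3, i ≠ i1 ∧ i ≠ i2 ∧ i1 ≠ i2 ∧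
      ∀ k : Fin 3, k = i ∨ k = i1 ∨ k = i2 := by
    fin_cases i
    · exact ⟨1, 2, by decide, by decide, by decide, by decide⟩
    · exact ⟨0, 2, by decide, by decide, by decide, by decide⟩
    · exact ⟨0, 1, by decide, by decide, by decide, by decide⟩
  refine ⟨3, fEP i i1 i2 j j', X (sg i j), fEP_homog i i1 i2 j j', ⟨1, isHomogeneous_X _ _⟩, ?_,
    fun v hv => local_eq2 v hj hall hv, indep v₀ hv₀ hj h01 h02 h12 hm⟩
  rw [eval_X]; exact hm

end Pool.Agent.H52.LB
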