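import Pool.Agent.H52.LB.Bc

/-!
# MP_2059f1_ag: module L-HI
-/

open Topology Set
open Pool.Agent.H59
open Pool.Agent.H64.LB

namespace Pool.Agent.H52.LB

section

variable {X Y : Type} [TopologicalSpace X] [TopologicalSpace Y]

/-- the homotopy of a simplex -/
def hS {f g : C(X, Y)} (H : f.Homotopy g) {n : ℕ} (s : Smp n X) : C(Dl n × unitInterval, Y) :=
  ⟨fun p => H (p.2, s p.1), by fun_prop⟩

/-- the prism operator over `ℤ` -/
noncomputable def Pz {f g : C(X, Y)} (H : f.Homotopy g) (n : ℕ) : Ch ℤ n X →ₗ[ℤ] Ch ℤ (n + 1) Y :=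
  Finsupp.linearCombination ℤ (fun s : Smp n X => prc n (hS H s))

theorem Pz_single {f g : C(X, Y)} (H : f.Homotopy g) (n : ℕ) (s : Smp n X) :
    Pz H n (Finsupp.single s 1) = prc n (hS H s) := by
  rw [Pz, Finsupp.linearCombination_single, one_smul]

theorem Pz_zero {f g : C(X, Y)} (H : f.Homotopy g) : Pz H 0 = 0 := by
  refine LinearMap.ext fun x => lin_ext (fun s => ?_) x
  rw [Pz_single, LinearMap.zero_apply, prc]
  have : (PL 0 : LL 0 (Dl 0) →ₗ[ℤ] LL 1 (Dl 0 × unitInterval)) = 0 := rfl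
  rw [this, LinearMap.zero_apply, map_zero]

theorem bd_Pz {f g : C(X, Y)} (H : f.Homotopy g) (n : ℕ) (x : Ch ℤ (n + 1) X) :
    bd ℤ (n + 1) Y (Pz H (n + 1) x) =
      pf ℤ (n + 1) g x - pf ℤ (n + 1) f x - Pz H n (bd ℤ n X x) := by
  refine lin_ext (f := (bd ℤ (n + 1) Y).comp (Pz H (n + 1)))
    (g := pf ℤ (n + 1) g - pf ℤ (n + 1) f - (Pz H n).comp (bd ℤ n X)) (fun s => ?_) x
  simp only [LinearMap.comp_apply, LinearMap.sub_apply]
  rw [Pz_single, bd_prc, pf_single, pf_single, bd_single, one_smul, map_sum]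
  congr 1
  · congr 1
    · congr 1
      ext t
      exact H.apply_one (s t)
    · congr 1
      ext t
      exact H.apply_zero (s t)
  · refine Finset.sum_congr rfl fun i _ => ?_
    rw [map_smul, Pz_single]
    rfl

end

theorem hi : T_HI := by
  intro R _ X Y _ _ f g hfg
  obtain ⟨H⟩ := hfg
  have H' := H.symm
  refine ⟨fun n => bc R (Pz H' n), ?_, fun n x => ?_⟩
  · refine LinearMap.ext fun x => ?_
    change bc R (Pz H' 0) x = 0
    rw [Pz_zero, bc_zero]
  · have h1 : (bd ℤ (n + 1) Y).comp (Pz H' (n + 1)) =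
        pf ℤ (n + 1) f - pf ℤ (n + 1) g - (Pz H' n).comp (bd ℤ n X) :=
      LinearMap.ext fun x => bd_Pz H' n x
    have h2 := congrArg (fun L => bc R L x) h1
    simp only [bc_comp, bc_sub, bc_bd, bc_pf] at h2
    exact h2

end Pool.Agent.H52.LB
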