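import Pool.Agent.H52.LB.Xx

/-!
# MP_2059f1_ag: module L-IRR
-/

open Topology Set MvPolynomial Filter
open Pool.Agent.H59
open Pool.Agent.H64.LB

namespace Pool.Agent.H52.LB

/-- the threefold as a set of vectors -/
def VS : Set (Fin 4 → ℂ) := {v | v 0 ^ 3 + ∑ i : Fin 3, v i.succ ^ 2 = 1}

theorem mem_VS {v : Fin 4 → ℂ} : v ∈ VS ↔ v 0 ^ 3 + (v 1 ^ 2 + v 2 ^ 2 + v 3 ^ 2) = 1 := by
  change v 0 ^ 3 + ∑ i : Fin 3, v i.succ ^ 2 = 1 ↔ _
  rw [Fin.sum_univ_three]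
  rfl

/-- the open part -/
def VS0 : Set (Fin 4 → ℂ) := {v | v ∈ VS ∧ v 1 + Complex.I * v 2 ≠ 0}

/-- `psi` over a ring -/
def psiG {A : Type*} [CommRing A] (v v' : Fin 4 → A) : Fin 20 → A := fun k =>
  if h : (k : ℕ) < 4 then v ⟨k, h⟩ + v' ⟨k, h⟩
  else (v ⟨((k : ℕ) - 4) / 4, by omega⟩ - v' ⟨((k : ℕ) - 4) / 4, by omega⟩) *
    (v ⟨((k : ℕ) - 4) % 4, by omega⟩ - v' ⟨((k : ℕ) - 4) % 4, by omega⟩)

theorem map_psiG {A B : Type*} [CommRing A] [CommRing B] (φ : A →+* B) (v v' : Fin 4 → A)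
    (k : Fin 20) : φ (psiG v v' k) = psiG (fun i => φ (v i)) (fun i => φ (v' i)) k := by
  unfold psiG
  by_cases h : (k : ℕ) < 4
  · rw [dif_pos h, dif_pos h, map_add]
  · rw [dif_neg h, dif_neg h, map_mul, map_sub, map_sub]

theorem psiG_eq (v v' : Fin 4 → ℂ) : psiG v v' = psi (v, v') := rfl

/-- the parametrisation -/
def theta {A : Type*} [CommRing A] (c1 c2 u s r : A) : Fin 4 → A :=
  ![1 + u * s, c1 * (u + (-(3 * s + 3 * u * s ^ 2 + u ^ 2 * s ^ 3) - u * r ^ 2)),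
    c2 * (u - (-(3 * s + 3 * u * s ^ 2 + u ^ 2 * s ^ 3) - u * r ^ 2)), u * r]

theorem map_theta {A B : Type*} [CommRing A] [CommRing B] (φ : A →+* B) (c1 c2 u s r : A)
    (k : Fin 4) : φ (theta c1 c2 u s r k) = theta (φ c1) (φ c2) (φ u) (φ s) (φ r) k := by
  fin_cases k
  · change φ (1 + u * s) = 1 + φ u * φ s
    simp
  · change φ (c1 * (u + (-(3 * s + 3 * u * s ^ 2 + u ^ 2 * s ^ 3) - u * r ^ 2))) =
      φ c1 * (φ u + (-(3 * φ s + 3 * φ u * φ s ^ 2 + φ u ^ 2 * φ s ^ 3) - φ u * φ r ^ 2))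
    simp only [map_mul, map_add, map_sub, map_neg, map_pow, map_ofNat]
  · change φ (c2 * (u - (-(3 * s + 3 * u * s ^ 2 + u ^ 2 * s ^ 3) - u * r ^ 2))) =
      φ c2 * (φ u - (-(3 * φ s + 3 * φ u * φ s ^ 2 + φ u ^ 2 * φ s ^ 3) - φ u * φ r ^ 2))
    simp only [map_mul, map_add, map_sub, map_neg, map_pow, map_ofNat]
  · change φ (u * r) = φ u * φ r
    simp

theorem theta_mem (u s r : ℂ) : theta (1 / 2) (-Complex.I / 2) u s r ∈ VS := by
  rw [mem_VS]
  change (1 + u * s) ^ 3 +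
    ((1 / 2 * (u + (-(3 * s + 3 * u * s ^ 2 + u ^ 2 * s ^ 3) - u * r ^ 2))) ^ 2 +
    (-Complex.I / 2 * (u - (-(3 * s + 3 * u * s ^ 2 + u ^ 2 * s ^ 3) - u * r ^ 2))) ^ 2 +
    (u * r) ^ 2) = 1
  have hI : Complex.I ^ 2 = -1 := Complex.I_sq
  linear_combination (1 / 4) * (u - (-(3 * s + 3 * u * s ^ 2 + u ^ 2 * s ^ 3) - u * r ^ 2)) ^ 2 * hI

/-- every point of the open part is in the image of the parametrisation -/
theorem exists_theta {v : Fin 4 → ℂ} (hv : v ∈ VS0) :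
    ∃ u s r : ℂ, theta (1 / 2) (-Complex.I / 2) u s r = v := by
  obtain ⟨h1, h2⟩ := hv
  rw [mem_VS] at h1
  set u : ℂ := v 1 + Complex.I * v 2 with hu
  have hI : Complex.I ^ 2 = -1 := Complex.I_sq
  have hw : -(3 * ((v 0 - 1) / u) + 3 * u * ((v 0 - 1) / u) ^ 2 + u ^ 2 * ((v 0 - 1) / u) ^ 3) -
      u * (v 3 / u) ^ 2 = v 1 - Complex.I * v 2 := by
    have h3 : u * (v 1 - Complex.I * v 2) = 1 - v 0 ^ 3 - v 3 ^ 2 := by
      rw [hu]
      linear_combination h1 - v 2 ^ 2 * hI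
    have h4 : u * (-(3 * ((v 0 - 1) / u) + 3 * u * ((v 0 - 1) / u) ^ 2 +
        u ^ 2 * ((v 0 - 1) / u) ^ 3) - u * (v 3 / u) ^ 2) = 1 - v 0 ^ 3 - v 3 ^ 2 := by
      field_simp
      ring
    exact mul_left_cancel₀ h2 (h4.trans h3.symm)
  refine ⟨u, (v 0 - 1) / u, v 3 / u, ?_⟩
  funext k
  fin_cases k
  · change 1 + u * ((v 0 - 1) / u) = v 0
    field_simp
    ring
  · change 1 / 2 * (u + (-(3 * ((v 0 - 1) / u) + 3 * u * ((v 0 - 1) / u) ^ 2 +
      u ^ 2 * ((v 0 - 1) / u) ^ 3) - u * (v 3 / u) ^ 2)) = v 1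
    rw [hw, hu]
    ring
  · change -Complex.I / 2 * (u - (-(3 * ((v 0 - 1) / u) + 3 * u * ((v 0 - 1) / u) ^ 2 +
      u ^ 2 * ((v 0 - 1) / u) ^ 3) - u * (v 3 / u) ^ 2)) = v 2
    rw [hw, hu]
    linear_combination (-v 2) * hI
  · change u * (v 3 / u) = v 3
    field_simp

/-- the open part is dense -/
theorem VS_subset_closure : VS ⊆ closure VS0 := by
  intro v hv
  by_cases hu : v 1 + Complex.I * v 2 = 0
  swap
  · exact subset_closure ⟨hv, hu⟩
  have hI : Complex.I ^ 2 = -1 := Complex.I_sq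
  have h1 := mem_VS.1 hv
  set w : ℂ := v 1 - Complex.I * v 2 with hw
  have h2 : 1 - v 0 ^ 3 - v 3 ^ 2 = 0 := by
    linear_combination (v 1 - Complex.I * v 2) * hu - h1 + v 2 ^ 2 * hI
  -- the nonvanishing factor
  have hρc : Continuous fun e : ℂ => 3 * v 0 ^ 2 + 3 * v 0 * e ^ 2 + e ^ 4 := by fun_prop
  have hne : ∀ᶠ e : ℂ in 𝓝[≠] 0, e ≠ 0 := self_mem_nhdsWithin
  have hρ : ∀ᶠ e : ℂ in 𝓝[≠] 0, 3 * v 0 ^ 2 + 3 * v 0 * e ^ 2 + e ^ 4 ≠ 0 := by
    by_cases h0 : v 0 = 0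
    · filter_upwards [hne] with e he
      rw [h0]
      simpa using he
    · have h3 : 3 * v 0 ^ 2 + 3 * v 0 * (0 : ℂ) ^ 2 + (0 : ℂ) ^ 4 ≠ 0 := by
        simpa using h0
      exact (hρc.continuousAt.eventually_ne h3).filter_mono nhdsWithin_le_nhds
  -- a curve
  obtain ⟨U, W, hUc, hWc, hU0, hW0, hUW, hUne⟩ : ∃ U W : ℂ → ℂ, Continuous U ∧ Continuous W ∧
      U 0 = 0 ∧ W 0 = w ∧
      (∀ e, U e * W e = -(e ^ 2 * (3 * v 0 ^ 2 + 3 * v 0 * e ^ 2 + e ^ 4))) ∧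
      (∀ e, e ≠ 0 → 3 * v 0 ^ 2 + 3 * v 0 * e ^ 2 + e ^ 4 ≠ 0 → U e ≠ 0) := by
    by_cases hw0 : w = 0
    · refine ⟨fun e => -(e * (3 * v 0 ^ 2 + 3 * v 0 * e ^ 2 + e ^ 4)), fun e => e, by fun_prop,
        by fun_prop, by simp, hw0.symm, fun e => by ring, fun e he h3 => ?_⟩
      exact neg_ne_zero.2 (mul_ne_zero he h3)
    · refine ⟨fun e => -(e ^ 2 * (3 * v 0 ^ 2 + 3 * v 0 * e ^ 2 + e ^ 4)) / w, fun _ => w,
        by fun_prop, by fun_prop, by simp, rfl, fun e => by field_simp, fun e he h3 => ?_⟩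
      exact div_ne_zero (neg_ne_zero.2 (mul_ne_zero (pow_ne_zero _ he) h3)) hw0
  set γ : ℂ → (Fin 4 → ℂ) := fun e => ![v 0 + e ^ 2, 1 / 2 * (U e + W e),
    -Complex.I / 2 * (U e - W e), v 3] with hγ
  have hγc : Continuous γ := by
    refine continuous_pi fun k => ?_
    fin_cases k
    · change Continuous fun e => v 0 + e ^ 2
      fun_prop
    · change Continuous fun e => 1 / 2 * (U e + W e)
      fun_prop
    · change Continuous fun e => -Complex.I / 2 * (U e - W e)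
      fun_prop
    · change Continuous fun _ : ℂ => v 3
      fun_prop
  have hγ0 : γ 0 = v := by
    funext k
    fin_cases k
    · change v 0 + 0 ^ 2 = v 0
      ring
    · change 1 / 2 * (U 0 + W 0) = v 1
      rw [hU0, hW0, hw]
      linear_combination (-1 / 2) * hu
    · change -Complex.I / 2 * (U 0 - W 0) = v 2
      rw [hU0, hW0, hw]
      linear_combination (Complex.I / 2) * hu - v 2 * hI
    · rfl
  have hγV : ∀ e, γ e ∈ VS := by
    intro e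
    rw [mem_VS]
    change (v 0 + e ^ 2) ^ 3 + ((1 / 2 * (U e + W e)) ^ 2 + (-Complex.I / 2 * (U e - W e)) ^ 2 +
      v 3 ^ 2) = 1
    linear_combination (1 / 4) * (U e - W e) ^ 2 * hI + hUW e - h2
  have hγU : ∀ e, γ e 1 + Complex.I * γ e 2 = U e := by
    intro e
    change 1 / 2 * (U e + W e) + Complex.I * (-Complex.I / 2 * (U e - W e)) = U e
    linear_combination (-1 / 2) * (U e - W e) * hI
  have ht : Tendsto γ (𝓝[≠] 0) (𝓝 v) := by
    have := (hγc.tendsto 0).mono_left (nhdsWithin_le_nhds (s := {0}ᶜ))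
    rwa [hγ0] at this
  refine mem_closure_of_tendsto ht ?_
  filter_upwards [hne, hρ] with e he h3
  exact ⟨hγV e, by rw [hγU]; exact hUne e he h3⟩

/-- the substitution -/
noncomputable def TT : Fin 21 → MvPolynomial (Fin 6) ℂ :=
  Fin.cons 1 (psiG (theta (C (1 / 2)) (C (-Complex.I / 2)) (X 0) (X 1) (X 2))
    (theta (C (1 / 2)) (C (-Complex.I / 2)) (X 3) (X 4) (X 5)))

theorem eval_TT (p : Fin 6 → ℂ) : (fun k => eval p (TT k)) =
    Fin.cons 1 (psi (theta (1 / 2) (-Complex.I / 2) (p 0) (p 1) (p 2),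
      theta (1 / 2) (-Complex.I / 2) (p 3) (p 4) (p 5))) := by
  funext k
  refine Fin.cases ?_ (fun k => ?_) k
  · change eval p (1 : MvPolynomial (Fin 6) ℂ) = 1
    simp
  · change eval p (psiG (theta (C (1 / 2)) (C (-Complex.I / 2)) (X 0) (X 1) (X 2))
      (theta (C (1 / 2)) (C (-Complex.I / 2)) (X 3) (X 4) (X 5)) k) = psi _ k
    rw [map_psiG, ← psiG_eq]
    simp only [map_theta, eval_C, eval_X]

theorem eval_bind_TT (p : Fin 6 → ℂ) (f : Pol 20) : eval p (bind₁ TT f) =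
    eval (Fin.cons 1 (psi (theta (1 / 2) (-Complex.I / 2) (p 0) (p 1) (p 2),
      theta (1 / 2) (-Complex.I / 2) (p 3) (p 4) (p 5))) : Fin 21 → ℂ) f := by
  rw [← eval_TT]
  exact eval₂Hom_bind₁ (RingHom.id ℂ) p TT f

theorem psi_zero {v v' : Fin 4 → ℂ} (h : v ∈ VS) (h' : v' ∈ VS) :
    (chart (psi (v, v')) : PN 20) ∈ affSet 20 SXX := ⟨psi (v, v'), psi_mem v v' h h', rfl⟩

theorem van_of_zero {f : Pol 20} (hf : Homog f) (h0 : bind₁ TT f = 0) :
    ∀ x ∈ affSet 20 SXX, Van f x := by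
  -- continuity and density
  set H : (Fin 4 → ℂ) × (Fin 4 → ℂ) → ℂ := fun p =>
    eval (Fin.cons 1 (psi p) : Fin 21 → ℂ) f with hH
  have hHc : Continuous H := by
    have h1 : Continuous fun x : Fin 21 → ℂ => eval x f := MvPolynomial.continuous_eval f
    refine h1.comp ?_
    refine continuous_pi fun k => ?_
    refine Fin.cases ?_ (fun k => ?_) k
    · exact continuous_const
    · exact (continuous_apply k).comp continuous_psi
  have hcl : IsClosed {p | H p = 0} := isClosed_eq hHc continuous_const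
  have hsub : VS0 ×ˢ VS0 ⊆ {p | H p = 0} := by
    rintro ⟨v, v'⟩ ⟨hv, hv'⟩
    obtain ⟨u, s, r, rfl⟩ := exists_theta hv
    obtain ⟨u', s', r', rfl⟩ := exists_theta hv'
    have := eval_bind_TT ![u, s, r, u', s', r'] f
    rw [h0, map_zero] at this
    exact this.symm
  have hall : VS ×ˢ VS ⊆ {p | H p = 0} := by
    intro p hp
    have h3 : p ∈ closure (VS0 ×ˢ VS0) := by
      rw [closure_prod_eq]
      exact ⟨VS_subset_closure hp.1, VS_subset_closure hp.2⟩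
    exact closure_minimal hsub hcl h3
  rintro x ⟨ξ, hξ, rfl⟩
  obtain ⟨v, v', h, h', e⟩ := exists_psi ξ hξ
  have h4 : H (v, v') = 0 := hall (show (v, v') ∈ VS ×ˢ VS from ⟨h, h'⟩)
  rw [← e]
  refine (van_pt_iff hf _).2 ?_
  exact h4

theorem irr_nonempty : (affSet 20 SXX).Nonempty :=
  ⟨_, psi_zero (v := theta (1 / 2) (-Complex.I / 2) 0 0 0)
      (v' := theta (1 / 2) (-Complex.I / 2) 0 0 0) (theta_mem _ _ _) (theta_mem _ _ _)⟩

theorem van_chart_iff {f : Pol 20} (hf : Homog f) (x : Fin 20 → ℂ) :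
    Van f (chart x) ↔ eval (Fin.cons 1 x : Fin 21 → ℂ) f = 0 := by
  rw [chart]
  exact van_pt_iff hf _

theorem irr_main (f g : Pol 20) (hf : Homog f) (hg : Homog g)
    (hfg : ∀ x ∈ affSet 20 SXX, Van f x ∨ Van g x) :
    (∀ x ∈ affSet 20 SXX, Van f x) ∨ (∀ x ∈ affSet 20 SXX, Van g x) := by
  have hAB : bind₁ TT f * bind₁ TT g = 0 := by
    apply MvPolynomial.funext
    intro p
    have hx := psi_zero (v := theta (1 / 2) (-Complex.I / 2) (p 0) (p 1) (p 2))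
      (v' := theta (1 / 2) (-Complex.I / 2) (p 3) (p 4) (p 5)) (theta_mem _ _ _) (theta_mem _ _ _)
    have h := hfg _ hx
    rw [van_chart_iff hf, van_chart_iff hg, ← eval_bind_TT, ← eval_bind_TT] at h
    rw [map_mul, map_zero, mul_eq_zero]
    exact h
  rcases mul_eq_zero.1 hAB with h | h
  · exact Or.inl (van_of_zero hf h)
  · exact Or.inr (van_of_zero hg h)

theorem irr : T_IRR := ⟨irr_nonempty, irr_main⟩

end Pool.Agent.H52.LB
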