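import Pool.Agent.H52.LB.Bc

/-!
# MP_2059f1_ag: module L-SM
-/

open Topology Set
open Pool.Agent.H59
open Pool.Agent.H64.LB

namespace Pool.Agent.H52.LB

theorem DI_zero {Y : Type} [TopologicalSpace Y] (m : ℕ) : (DI 0 m : Ch ℤ 0 Y →ₗ[ℤ] Ch ℤ 1 Y) = 0 := by
  have hT : (Tc 0 : Ch ℤ 0 Y →ₗ[ℤ] Ch ℤ 1 Y) = 0 := by
    refine LinearMap.ext fun x => lin_ext (fun s => ?_) x
    rw [Tc_single, LinearMap.zero_apply]
    have : (TL 0 : LL 0 (Dl 0) →ₗ[ℤ] LL 1 (Dl 0)) = 0 := rfl
    rw [this, LinearMap.zero_apply, map_zero]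
  induction m with
  | zero => rfl
  | succ m ih => rw [DI, ih, hT, LinearMap.zero_comp, add_zero]

variable (R : Type) [CommRing R]

theorem red_mem_of_Sml {X : Type} [TopologicalSpace X] {U V : Set X} {n : ℕ} {c : Ch ℤ n X}
    (hc : c ∈ Sml n U V) : red R _ c ∈ LinearMap.range (pf R n (inc U)) ⊔
      LinearMap.range (pf R n (inc V)) := by
  set N : Submodule R (Ch R n X) := LinearMap.range (pf R n (inc U)) ⊔
      LinearMap.range (pf R n (inc V)) with hN
  have := lin_mem (red R (Smp n X)).toIntLinearMap {σ | (∀ x, σ x ∈ U) ∨ (∀ x, σ x ∈ V)}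
    (AddSubgroup.toIntSubmodule N.toAddSubgroup) (fun σ hσ => ?_) hc
  · exact this
  · change red R (Smp n X) (Finsupp.single σ 1) ∈ N
    rw [red_single, Int.cast_one]
    rcases hσ with hσ | hσ
    · refine Submodule.mem_sup_left ⟨Finsupp.single (corestr σ hσ) 1, ?_⟩
      rw [pf_single, inc_comp_corestr]
    · refine Submodule.mem_sup_right ⟨Finsupp.single (corestr σ hσ) 1, ?_⟩
      rw [pf_single, inc_comp_corestr]

theorem sm : T_SM := by
  intro R _ X _ U V hU hV hUV n x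
  have hex : ∀ σ : Smp n X, ∃ m₀, ∀ m ≥ m₀, SdI n m (Finsupp.single σ 1) ∈ Sml n U V := fun σ =>
    exists_small σ hU hV (fun t => by rw [hUV]; exact mem_univ _)
  choose M hM using hex
  set m := x.support.sup M with hm
  refine ⟨fun k => bc R (SdI k m), fun k => bc R (DI k m), fun k y => ?_, ⟨?_, fun k y => ?_⟩,
    fun W k y => ?_, fun W k y => ?_, ?_⟩
  · have h1 : (bd ℤ k X).comp (SdI (k + 1) m) = (SdI k m).comp (bd ℤ k X) :=
      LinearMap.ext fun x => bd_SdI k m x
    have h2 := congrArg (fun L => bc R L y) h1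
    simp only [bc_comp, bc_bd] at h2
    exact h2
  · refine LinearMap.ext fun x => ?_
    change bc R (DI 0 m) x = 0
    rw [DI_zero, bc_zero]
  · have h1 : (bd ℤ (k + 1) X).comp (DI (k + 1) m) =
        LinearMap.id - SdI (k + 1) m - (DI k m).comp (bd ℤ k X) :=
      LinearMap.ext fun x => bd_DI k m x
    have h2 := congrArg (fun L => bc R L y) h1
    simp only [bc_comp, bc_sub, bc_bd, bc_id] at h2
    exact h2
  · refine ⟨bc R (SdI k m) y, ?_⟩
    have h1 : (pf ℤ k (inc W)).comp (SdI k m) = (SdI k m).comp (pf ℤ k (inc W)) :=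
      LinearMap.ext fun x => pf_SdI k m (inc W) x
    have h2 := congrArg (fun L => bc R L y) h1
    simp only [bc_comp, bc_pf] at h2
    exact h2
  · refine ⟨bc R (DI k m) y, ?_⟩
    have h1 : (pf ℤ (k + 1) (inc W)).comp (DI k m) = (DI k m).comp (pf ℤ k (inc W)) :=
      LinearMap.ext fun x => pf_DI k m (inc W) x
    have h2 := congrArg (fun L => bc R L y) h1
    simp only [bc_comp, bc_pf] at h2
    exact h2
  · have hmem : bc R (SdI n m) x ∈ LinearMap.range (pf R n (inc U)) ⊔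
        LinearMap.range (pf R n (inc V)) := by
      have hx : x = ∑ σ ∈ x.support, Finsupp.single σ (x σ) := (Finsupp.sum_single x).symm
      rw [hx, map_sum]
      refine Submodule.sum_mem _ fun σ hσ => ?_
      rw [bc_single]
      refine Submodule.smul_mem _ _ (red_mem_of_Sml R (hM σ m ?_))
      exact Finset.le_sup (f := M) hσ
    obtain ⟨_, ⟨a, rfl⟩, _, ⟨b, rfl⟩, h⟩ := Submodule.mem_sup.1 hmem
    exact ⟨a, b, h.symm⟩

end Pool.Agent.H52.LB
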