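import Pool.Agent.H64.LB.Targets

/-!
# MP_2059f1_ag: module L-XX
-/

open Topology Set MvPolynomial
open Pool.Agent.H59
open Pool.Agent.H64.LB

namespace Pool.Agent.H52.LB

/-- the map of which `ptXX` is a restriction -/
def psi (p : (Fin 4 → ℂ) × (Fin 4 → ℂ)) : Fin 20 → ℂ := fun k =>
  if h : (k : ℕ) < 4 then p.1 ⟨k, h⟩ + p.2 ⟨k, h⟩
  else (p.1 ⟨((k : ℕ) - 4) / 4, by omega⟩ - p.2 ⟨((k : ℕ) - 4) / 4, by omega⟩) *
    (p.1 ⟨((k : ℕ) - 4) % 4, by omega⟩ - p.2 ⟨((k : ℕ) - 4) % 4, by omega⟩)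

theorem psi_sv (p : (Fin 4 → ℂ) × (Fin 4 → ℂ)) (i : Fin 4) : psi p (sv i) = p.1 i + p.2 i := by
  have h : ((sv i : Fin 20) : ℕ) < 4 := i.2
  unfold psi
  rw [dif_pos h]
  rfl

theorem psi_pv (p : (Fin 4 → ℂ) × (Fin 4 → ℂ)) (i j : Fin 4) :
    psi p (pv i j) = (p.1 i - p.2 i) * (p.1 j - p.2 j) := by
  have h : ¬ ((pv i j : Fin 20) : ℕ) < 4 := by
    change ¬ (4 + 4 * (i : ℕ) + j < 4)
    omega
  have e1 : (⟨(((pv i j : Fin 20) : ℕ) - 4) / 4, by omega⟩ : Fin 4) = i := by
    apply Fin.ext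
    change (4 + 4 * (i : ℕ) + j - 4) / 4 = i
    omega
  have e2 : (⟨(((pv i j : Fin 20) : ℕ) - 4) % 4, by omega⟩ : Fin 4) = j := by
    apply Fin.ext
    change (4 + 4 * (i : ℕ) + j - 4) % 4 = j
    omega
  unfold psi
  rw [dif_neg h, e1, e2]

theorem fin20_cases (k : Fin 20) : (∃ i, k = sv i) ∨ ∃ i j, k = pv i j := by
  by_cases h : (k : ℕ) < 4
  · exact Or.inl ⟨⟨k, h⟩, rfl⟩
  · refine Or.inr ⟨⟨((k : ℕ) - 4) / 4, by omega⟩, ⟨((k : ℕ) - 4) % 4, by omega⟩, ?_⟩
    apply Fin.ext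
    change (k : ℕ) = 4 + 4 * (((k : ℕ) - 4) / 4) + ((k : ℕ) - 4) % 4
    omega

theorem ext20 {x y : Fin 20 → ℂ} (h1 : ∀ i, x (sv i) = y (sv i))
    (h2 : ∀ i j, x (pv i j) = y (pv i j)) : x = y := by
  funext k
  rcases fin20_cases k with ⟨i, rfl⟩ | ⟨i, j, rfl⟩
  · exact h1 i
  · exact h2 i j

theorem continuous_psi : Continuous psi := by
  refine continuous_pi fun k => ?_
  by_cases h : (k : ℕ) < 4
  · have : (fun p => psi p k) = fun p : (Fin 4 → ℂ) × (Fin 4 → ℂ) => p.1 ⟨k, h⟩ + p.2 ⟨k, h⟩ := by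
      funext p; unfold psi; rw [dif_pos h]
    rw [this]; fun_prop
  · have : (fun p => psi p k) = fun p : (Fin 4 → ℂ) × (Fin 4 → ℂ) =>
        (p.1 ⟨((k : ℕ) - 4) / 4, by omega⟩ - p.2 ⟨((k : ℕ) - 4) / 4, by omega⟩) *
          (p.1 ⟨((k : ℕ) - 4) % 4, by omega⟩ - p.2 ⟨((k : ℕ) - 4) % 4, by omega⟩) := by
      funext p; unfold psi; rw [dif_neg h]
    rw [this]; fun_prop

/-- `psi` is a proper map -/
theorem psi_isClosedMap : IsClosedMap psi := by
  apply IsProperMap.isClosedMap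
  rw [isProperMap_iff_isCompact_preimage]
  refine ⟨continuous_psi, fun K hK => ?_⟩
  apply Metric.isCompact_of_isClosed_isBounded (hK.isClosed.preimage continuous_psi)
  obtain ⟨M, hM⟩ := hK.isBounded.subset_closedBall (0 : Fin 20 → ℂ)
  refine (Metric.isBounded_closedBall (x := (0 : (Fin 4 → ℂ) × (Fin 4 → ℂ)))
    (r := |M| + 1)).subset ?_
  intro p hp
  have h1 : ‖psi p‖ ≤ M := by simpa using hM hp
  have hM0 : 0 ≤ |M| := abs_nonneg M
  have h2 : ∀ k, ‖psi p k‖ ≤ |M| := fun k => (norm_le_pi_norm (psi p) k).trans (h1.trans (le_abs_self M))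
  have hs : ∀ i, ‖p.1 i + p.2 i‖ ≤ |M| := fun i => by rw [← psi_sv]; exact h2 _
  have hd : ∀ i, ‖p.1 i - p.2 i‖ ≤ |M| + 1 := by
    intro i
    have := h2 (pv i i)
    rw [psi_pv, norm_mul] at this
    by_contra hc
    push Not at hc
    nlinarith [norm_nonneg (p.1 i - p.2 i)]
  have ha : ∀ i, ‖p.1 i‖ ≤ |M| + 1 := by
    intro i
    have e : p.1 i = (1 / 2 : ℂ) * ((p.1 i + p.2 i) + (p.1 i - p.2 i)) := by ring
    rw [e, norm_mul]
    have h3 : ‖(1 / 2 : ℂ)‖ = 1 / 2 := by simp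
    rw [h3]
    have := norm_add_le (p.1 i + p.2 i) (p.1 i - p.2 i)
    linarith [hs i, hd i]
  have hb : ∀ i, ‖p.2 i‖ ≤ |M| + 1 := by
    intro i
    have e : p.2 i = (1 / 2 : ℂ) * ((p.1 i + p.2 i) - (p.1 i - p.2 i)) := by ring
    rw [e, norm_mul]
    have h3 : ‖(1 / 2 : ℂ)‖ = 1 / 2 := by simp
    rw [h3]
    have := norm_sub_le (p.1 i + p.2 i) (p.1 i - p.2 i)
    linarith [hs i, hd i]
  rw [mem_closedBall_zero_iff, Prod.norm_def]
  apply max_le
  · exact (pi_norm_le_iff_of_nonneg (by linarith)).2 ha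
  · exact (pi_norm_le_iff_of_nonneg (by linarith)).2 hb

theorem rank1_eq {d e : Fin 4 → ℂ} (h : ∀ i j, d i * d j = e i * e j) :
    d = e ∨ d = fun i => -e i := by
  by_cases h0 : ∀ i, e i = 0
  · left
    funext i
    have := h i i
    rw [h0 i, mul_zero] at this
    rw [h0 i]
    exact mul_self_eq_zero.1 this
  · push Not at h0
    obtain ⟨k, hk⟩ := h0
    have h1 := mul_self_eq_mul_self_iff.1 (h k k)
    rcases h1 with h1 | h1
    · left
      funext i
      have := h i k
      rw [h1] at this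
      exact mul_right_cancel₀ hk this
    · right
      funext i
      have := h i k
      rw [h1] at this
      have h2 : -d i * e k = e i * e k := by rw [← this]; ring
      have h3 := mul_right_cancel₀ hk h2
      rw [← h3, neg_neg]

theorem psi_eq_iff (v v' w w' : Fin 4 → ℂ) : psi (v, v') = psi (w, w') ↔
    (v = w ∧ v' = w') ∨ (v = w' ∧ v' = w) := by
  constructor
  · intro h
    have hs : ∀ i, v i + v' i = w i + w' i := fun i => by
      have := congrFun h (sv i)
      simpa only [psi_sv] using this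
    have hd : ∀ i j, (v i - v' i) * (v j - v' j) = (w i - w' i) * (w j - w' j) := fun i j => by
      have := congrFun h (pv i j)
      simpa only [psi_pv] using this
    rcases rank1_eq (d := fun i => v i - v' i) (e := fun i => w i - w' i) hd with h1 | h1
    · left
      have h2 : ∀ i, v i - v' i = w i - w' i := fun i => congrFun h1 i
      constructor
      · funext i; linear_combination (1 / 2) * hs i + (1 / 2) * h2 i
      · funext i; linear_combination (1 / 2) * hs i - (1 / 2) * h2 i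
    · right
      have h2 : ∀ i, v i - v' i = -(w i - w' i) := fun i => congrFun h1 i
      constructor
      · funext i; linear_combination (1 / 2) * hs i + (1 / 2) * h2 i
      · funext i; linear_combination (1 / 2) * hs i - (1 / 2) * h2 i
  · rintro (⟨rfl, rfl⟩ | ⟨rfl, rfl⟩)
    · rfl
    · apply ext20
      · intro i; rw [psi_sv, psi_sv]; ring
      · intro i j; rw [psi_pv, psi_pv]; ring

theorem ptXX_eq (y y' : VV 3) : ptXX y y' = psi (vec4 y, vec4 y') := rfl

theorem vec4_zero (y : VV 3) : vec4 y 0 = y.1.1 := rfl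
theorem vec4_succ (y : VV 3) (i : Fin 3) : vec4 y i.succ = y.1.2 i := rfl

theorem vec4_eqn (y : VV 3) : vec4 y 0 ^ 3 + ∑ i : Fin 3, vec4 y i.succ ^ 2 = 1 := y.2

theorem vec4_injective : Function.Injective (vec4 : VV 3 → Fin 4 → ℂ) := by
  intro y y' h
  refine Subtype.ext (Prod.ext ?_ ?_)
  · exact congrFun h 0
  · funext i
    exact congrFun h i.succ

/-- the point of `VV 3` of a vector -/
def ofVec (v : Fin 4 → ℂ) (h : v 0 ^ 3 + ∑ i : Fin 3, v i.succ ^ 2 = 1) : VV 3 :=
  ⟨(v 0, fun i => v i.succ), h⟩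

theorem vec4_ofVec (v : Fin 4 → ℂ) (h : v 0 ^ 3 + ∑ i : Fin 3, v i.succ ^ 2 = 1) :
    vec4 (ofVec v h) = v := by
  funext i
  refine Fin.cases ?_ (fun i => ?_) i
  · rfl
  · rfl

/-- the equations of `Zeros SXX` -/
theorem zeros_SXX_iff (x : Fin 20 → ℂ) : (∀ f ∈ SXX, MvPolynomial.eval x f = 0) ↔
    (∀ i j, x (pv i j) = x (pv j i)) ∧
    (∀ i j k l, x (pv i j) * x (pv k l) = x (pv i l) * x (pv k j)) ∧
    (x (sv 0) ^ 3 + 3 * x (sv 0) * x (pv 0 0) +
      2 * ∑ i : Fin 3, (x (sv i.succ) ^ 2 + x (pv i.succ i.succ)) = 8) ∧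
    (∀ j : Fin 4, x (pv j 0) * (3 * x (sv 0) ^ 2 + x (pv 0 0)) +
        4 * ∑ i : Fin 3, x (pv j i.succ) * x (sv i.succ) = 0) := by
  classical
  have e3 : MvPolynomial.eval x (3 : MvPolynomial (Fin 20) ℂ) = 3 := map_ofNat _ 3
  have e2 : MvPolynomial.eval x (2 : MvPolynomial (Fin 20) ℂ) = 2 := map_ofNat _ 2
  have e4 : MvPolynomial.eval x (4 : MvPolynomial (Fin 20) ℂ) = 4 := map_ofNat _ 4
  have e8 : MvPolynomial.eval x (8 : MvPolynomial (Fin 20) ℂ) = 8 := map_ofNat _ 8
  constructor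
  · intro h
    refine ⟨fun i j => ?_, fun i j k l => ?_, ?_, fun j => ?_⟩
    · have := h (X (pv i j) - X (pv j i)) (by
        rw [SXX]
        simp only [Finset.mem_union]
        refine Or.inl (Or.inl (Or.inl (Finset.mem_image.2 ⟨(i, j), Finset.mem_univ _, rfl⟩))))
      rw [map_sub, eval_X, eval_X] at this
      exact sub_eq_zero.1 this
    · have := h (X (pv i j) * X (pv k l) - X (pv i l) * X (pv k j)) (by
        rw [SXX]
        simp only [Finset.mem_union]
        refine Or.inl (Or.inl (Or.inr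
          (Finset.mem_image.2 ⟨((i, j), (k, l)), Finset.mem_univ _, rfl⟩))))
      simp only [map_sub, map_mul, eval_X] at this
      exact sub_eq_zero.1 this
    · have := h _ (by
        rw [SXX]
        simp only [Finset.mem_union]
        exact Or.inl (Or.inr (Finset.mem_singleton_self _)))
      simp only [map_sub, map_add, map_mul, map_pow, eval_X, map_sum, e3, e2, e8] at this
      exact sub_eq_zero.1 this
    · have := h (X (pv j 0) * (3 * X (sv 0) ^ 2 + X (pv 0 0)) +
        4 * ∑ i : Fin 3, X (pv j i.succ) * X (sv i.succ)) (by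
        rw [SXX]
        simp only [Finset.mem_union]
        exact Or.inr (Finset.mem_image.2 ⟨j, Finset.mem_univ _, rfl⟩))
      simp only [map_add, map_mul, map_pow, eval_X, map_sum, e3, e4] at this
      exact this
  · rintro ⟨h1, h2, h3, h4⟩ f hf
    rw [SXX] at hf
    simp only [Finset.mem_union] at hf
    rcases hf with ((hf | hf) | hf) | hf
    · obtain ⟨⟨i, j⟩, _, rfl⟩ := Finset.mem_image.1 hf
      rw [map_sub, eval_X, eval_X]
      exact sub_eq_zero.2 (h1 i j)
    · obtain ⟨⟨⟨i, j⟩, ⟨k, l⟩⟩, _, rfl⟩ := Finset.mem_image.1 hf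
      simp only [map_sub, map_mul, eval_X]
      exact sub_eq_zero.2 (h2 i j k l)
    · rw [Finset.mem_singleton.1 hf]
      simp only [map_sub, map_add, map_mul, map_pow, eval_X, map_sum, e3, e2, e8]
      exact sub_eq_zero.2 h3
    · obtain ⟨j, _, rfl⟩ := Finset.mem_image.1 hf
      simp only [map_add, map_mul, map_pow, eval_X, map_sum, e3, e4]
      exact h4 j

theorem psi_mem (v v' : Fin 4 → ℂ) (h : v 0 ^ 3 + ∑ i : Fin 3, v i.succ ^ 2 = 1)
    (h' : v' 0 ^ 3 + ∑ i : Fin 3, v' i.succ ^ 2 = 1) :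
    ∀ f ∈ SXX, MvPolynomial.eval (psi (v, v')) f = 0 := by
  rw [zeros_SXX_iff]
  rw [Fin.sum_univ_three] at h h'
  refine ⟨fun i j => ?_, fun i j k l => ?_, ?_, fun j => ?_⟩
  · rw [psi_pv, psi_pv]; ring
  · simp only [psi_pv]; ring
  · simp only [psi_pv, psi_sv, Fin.sum_univ_three]
    linear_combination 4 * h + 4 * h'
  · simp only [psi_pv, psi_sv, Fin.sum_univ_three]
    linear_combination (v j - v' j) * 4 * (h - h')

theorem exists_psi (x : Fin 20 → ℂ) (hx : ∀ f ∈ SXX, MvPolynomial.eval x f = 0) :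
    ∃ v v' : Fin 4 → ℂ, v 0 ^ 3 + ∑ i : Fin 3, v i.succ ^ 2 = 1 ∧
      v' 0 ^ 3 + ∑ i : Fin 3, v' i.succ ^ 2 = 1 ∧ psi (v, v') = x := by
  obtain ⟨h1, h2, h3, h4⟩ := (zeros_SXX_iff x).1 hx
  have hd : ∃ d : Fin 4 → ℂ, ∀ i j, x (pv i j) = d i * d j := by
    by_cases h0 : ∀ i, x (pv i i) = 0
    · refine ⟨0, fun i j => ?_⟩
      have := h2 i j j i
      rw [h0 i, zero_mul, h1 j i] at this
      rw [mul_self_eq_zero.1 this]
      simp
    · push Not at h0
      obtain ⟨i, hi⟩ := h0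
      obtain ⟨c, hc⟩ := IsAlgClosed.exists_pow_nat_eq (x (pv i i)) (n := 2) (by norm_num)
      have hc0 : c ≠ 0 := by
        rintro rfl
        exact hi (by rw [← hc]; norm_num)
      refine ⟨fun k => x (pv i k) / c, fun k l => ?_⟩
      have h5 := h2 i i k l
      rw [h1 k i, ← hc] at h5
      field_simp
      linear_combination h5
  obtain ⟨d, hd⟩ := hd
  set s : Fin 4 → ℂ := fun i => x (sv i) with hs
  have hs' : ∀ i, x (sv i) = s i := fun i => rfl
  simp only [hd, hs', Fin.sum_univ_three] at h3 h4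
  set v : Fin 4 → ℂ := fun i => (s i + d i) / 2 with hv
  set v' : Fin 4 → ℂ := fun i => (s i - d i) / 2 with hv'
  have hsum : (v 0 ^ 3 + ∑ i : Fin 3, v i.succ ^ 2 - 1) + (v' 0 ^ 3 + ∑ i : Fin 3, v' i.succ ^ 2 - 1)
      = 0 := by
    simp only [hv, hv', Fin.sum_univ_three]
    linear_combination (1 / 4) * h3
  have hdiff : (v 0 ^ 3 + ∑ i : Fin 3, v i.succ ^ 2 - 1) - (v' 0 ^ 3 + ∑ i : Fin 3, v' i.succ ^ 2 - 1)
      = 0 := by
    by_cases h0 : ∀ j, d j = 0
    · have : v = v' := by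
        funext i
        simp only [hv, hv', h0 i]
        ring
      rw [this, sub_self]
    · push Not at h0
      obtain ⟨j, hj⟩ := h0
      have h5 := h4 j
      have h6 : d j * ((v 0 ^ 3 + ∑ i : Fin 3, v i.succ ^ 2 - 1) -
          (v' 0 ^ 3 + ∑ i : Fin 3, v' i.succ ^ 2 - 1)) = 0 := by
        simp only [hv, hv', Fin.sum_univ_three]
        linear_combination (1 / 4) * h5
      exact (mul_eq_zero.1 h6).resolve_left hj
  refine ⟨v, v', ?_, ?_, ?_⟩
  · linear_combination (1 / 2) * hsum + (1 / 2) * hdiff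
  · linear_combination (1 / 2) * hsum - (1 / 2) * hdiff
  · apply ext20
    · intro i
      rw [psi_sv]
      simp only [hv, hv', hs]
      ring
    · intro i j
      rw [psi_pv, hd]
      simp only [hv, hv']
      ring

/-- the map from pairs of points -/
def phi (y : Fin 2 → VV 3) : Zeros SXX :=
  ⟨psi (vec4 (y 0), vec4 (y 1)), psi_mem _ _ (vec4_eqn _) (vec4_eqn _)⟩

theorem continuous_vec4 : Continuous (vec4 : VV 3 → Fin 4 → ℂ) := by
  refine continuous_pi fun i => ?_
  refine Fin.cases ?_ (fun i => ?_) i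
  · exact continuous_fst.comp continuous_subtype_val
  · exact (continuous_apply i).comp (continuous_snd.comp continuous_subtype_val)

theorem continuous_phi : Continuous phi := by
  refine Continuous.subtype_mk ?_ _
  exact continuous_psi.comp ((continuous_vec4.comp (continuous_apply 0)).prodMk
    (continuous_vec4.comp (continuous_apply 1)))

theorem phi_surjective : Function.Surjective phi := by
  rintro ⟨x, hx⟩
  obtain ⟨v, v', h, h', e⟩ := exists_psi x hx
  refine ⟨![ofVec v h, ofVec v' h'], Subtype.ext ?_⟩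
  change psi (vec4 (ofVec v h), vec4 (ofVec v' h')) = x
  rw [vec4_ofVec, vec4_ofVec, e]

theorem phi_eq_iff (y y' : Fin 2 → VV 3) : phi y = phi y' ↔ ∃ σ : Equiv.Perm (Fin 2), y' = y ∘ σ := by
  constructor
  · intro h
    have h1 := congrArg Subtype.val h
    change psi (vec4 (y 0), vec4 (y 1)) = psi (vec4 (y' 0), vec4 (y' 1)) at h1
    rcases (psi_eq_iff _ _ _ _).1 h1 with ⟨e1, e2⟩ | ⟨e1, e2⟩
    · refine ⟨1, ?_⟩
      funext i
      fin_cases i
      · exact (vec4_injective e1).symm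
      · exact (vec4_injective e2).symm
    · refine ⟨Equiv.swap 0 1, ?_⟩
      funext i
      fin_cases i
      · exact (vec4_injective e2).symm
      · exact (vec4_injective e1).symm
  · rintro ⟨σ, rfl⟩
    refine Subtype.ext ?_
    change psi (vec4 (y 0), vec4 (y 1)) = psi (vec4 (y (σ 0)), vec4 (y (σ 1)))
    rw [psi_eq_iff]
    have hσ : σ 0 ≠ σ 1 := fun h => by simpa using σ.injective h
    generalize σ 0 = a at hσ
    generalize σ 1 = b at hσ
    fin_cases a <;> fin_cases b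
    · exact absurd rfl hσ
    · exact Or.inl ⟨rfl, rfl⟩
    · exact Or.inr ⟨rfl, rfl⟩
    · exact absurd rfl hσ

theorem phi_isClosedMap : IsClosedMap phi := by
  intro C hC
  -- the closed set of pairs of vectors
  set K : Set ((Fin 4 → ℂ) × (Fin 4 → ℂ)) :=
    {p | p.1 0 ^ 3 + ∑ i : Fin 3, p.1 i.succ ^ 2 = 1 ∧
      p.2 0 ^ 3 + ∑ i : Fin 3, p.2 i.succ ^ 2 = 1} with hK
  have hKc : IsClosed K := by
    refine IsClosed.inter ?_ ?_
    · exact isClosed_eq (by fun_prop) (by fun_prop)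
    · exact isClosed_eq (by fun_prop) (by fun_prop)
  let r : K → (Fin 2 → VV 3) := fun p => ![ofVec p.1.1 p.2.1, ofVec p.1.2 p.2.2]
  have hr : Continuous r := by
    refine continuous_pi fun i => ?_
    fin_cases i
    · refine Continuous.subtype_mk ?_ _
      exact Continuous.prodMk (by fun_prop) (by fun_prop)
    · refine Continuous.subtype_mk ?_ _
      exact Continuous.prodMk (by fun_prop) (by fun_prop)
  have hcl : IsClosed (psi '' (Subtype.val '' (r ⁻¹' C))) :=
    psi_isClosedMap _ (hKc.isClosedMap_subtype_val _ (hC.preimage hr))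
  have heq : phi '' C = Subtype.val ⁻¹' (psi '' (Subtype.val '' (r ⁻¹' C))) := by
    ext x
    constructor
    · rintro ⟨y, hy, rfl⟩
      refine ⟨(vec4 (y 0), vec4 (y 1)), ⟨⟨(vec4 (y 0), vec4 (y 1)), vec4_eqn _, vec4_eqn _⟩, ?_, rfl⟩, rfl⟩
      change r _ ∈ C
      have : r ⟨(vec4 (y 0), vec4 (y 1)), vec4_eqn _, vec4_eqn _⟩ = y := by
        funext i
        fin_cases i
        · rfl
        · rfl
      rw [this]; exact hy
    · rintro ⟨_, ⟨p, hp, rfl⟩, hx⟩
      refine ⟨r p, hp, Subtype.ext ?_⟩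
      rw [← hx]
      change psi (vec4 (ofVec p.1.1 p.2.1), vec4 (ofVec p.1.2 p.2.2)) = psi p.1
      rw [vec4_ofVec, vec4_ofVec]
  rw [heq]
  exact hcl.preimage continuous_subtype_val

/-- the induced map on the symmetric square -/
def phiQ : SP 2 (VV 3) → Zeros SXX :=
  Quotient.lift phi (fun y y' h => (phi_eq_iff y y').2 h)

theorem xx : T_XX := by
  have hc : Continuous phiQ := continuous_phi.quotient_lift _
  have hinj : Function.Injective phiQ := by
    intro a b
    induction a using Quotient.inductionOn with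
    | h y =>
      induction b using Quotient.inductionOn with
      | h y' =>
        intro h
        exact Quotient.sound ((phi_eq_iff y y').1 h)
  have hsurj : Function.Surjective phiQ := by
    intro x
    obtain ⟨y, hy⟩ := phi_surjective x
    exact ⟨SP.mk y, hy⟩
  have hcl : IsClosedMap phiQ := by
    intro C hC
    have : phiQ '' C = phi '' (SP.mk ⁻¹' C) := by
      ext x
      constructor
      · rintro ⟨a, ha, rfl⟩
        induction a using Quotient.inductionOn with
        | h y => exact ⟨y, ha, rfl⟩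
      · rintro ⟨y, hy, rfl⟩
        exact ⟨SP.mk y, hy, rfl⟩
    rw [this]
    exact phi_isClosedMap _ (hC.preimage SP.continuous_mk)
  refine ⟨(Equiv.ofBijective phiQ ⟨hinj, hsurj⟩).toHomeomorphOfContinuousClosed hc hcl, ?_⟩
  intro y y'
  rfl

end Pool.Agent.H52.LB
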